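import Mathlib

/-! Real sticky Kakeya sets: definitions (blueprint: /team-store/rsk_blueprint.md). -/

namespace Pool.Agent.Helper69.RK

open Finset

noncomputable section

/-! ### weighted finite spaces -/

open Classical in
/-- mass of the atom of `f` that contains `ω` -/
def pr {Ω α : Type} [Fintype Ω] (μ : Ω → ℝ) (f : Ω → α) (ω : Ω) : ℝ :=
  ∑ ω' : Ω, if f ω' = f ω then μ ω' else 0

/-- conditional entropy `H(f | g)` in bits, not normalised -/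
def CH {Ω α β : Type} [Fintype Ω] (μ : Ω → ℝ) (f : Ω → α) (g : Ω → β) : ℝ :=
  ∑ ω : Ω, μ ω * (Real.logb 2 (pr μ g ω) - Real.logb 2 (pr μ (fun ω' => (f ω', g ω')) ω))

/-- total mass -/
def mass {Ω : Type} [Fintype Ω] (μ : Ω → ℝ) : ℝ := ∑ ω : Ω, μ ω

open Classical in
/-- restriction of the weights to the event `E` -/
def res {Ω : Type} (μ : Ω → ℝ) (E : Ω → Prop) : Ω → ℝ := fun ω => if E ω then μ ω else 0

/-- `f` is a function of `g` on the support of `μ` (also used for events `f : Ω → Prop`) -/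
def Dep {Ω α β : Type} (μ : Ω → ℝ) (g : Ω → β) (f : Ω → α) : Prop :=
  ∀ ω ω', μ ω ≠ 0 → μ ω' ≠ 0 → g ω = g ω' → f ω = f ω'

/-! ### cells, lines, heights -/

/-- cell of side `2 ^ (-l)` -/
def cel {m : ℕ} (l : ℕ) (y : Fin m → ℝ) : Fin m → ℤ := fun i => ⌊(2 : ℝ) ^ l * y i⌋

/-- the point of the line `(a, x)` at height `t` -/
def Yt {m : ℕ} (t : ℝ) (a x : Fin m → ℝ) : Fin m → ℝ := fun i => a i + t * x i

/-- the height with number `t` -/
def ht (g t : ℕ) : ℝ := (t : ℝ) / (2 : ℝ) ^ g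

/-! ### charts -/

/-- the subspace `y_i = ∑_{k ∈ J} B i k y_k`, `i ∉ J` -/
structure Dat (m : ℕ) where
  J : Finset (Fin m)
  B : Fin m → Fin m → ℝ

/-- coordinates transversal to the subspace -/
def Dat.N {m : ℕ} (D : Dat m) (y : Fin m → ℝ) : Fin m → ℝ :=
  fun i => if i ∈ D.J then 0 else y i - ∑ k ∈ D.J, D.B i k * y k

/-- coordinates along the subspace -/
def Dat.v {m : ℕ} (D : Dat m) (y : Fin m → ℝ) : Fin m → ℝ := fun i => if i ∈ D.J then y i else 0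

/-- bounded charts -/
def Dat.Bd {m : ℕ} (D : Dat m) (K : ℝ) : Prop := ∀ i k, |D.B i k| ≤ K

/-- weight of a chart: the dimension plus a tie-break -/
def wt {m : ℕ} (J : Finset (Fin m)) : ℝ := (J.card : ℝ) + (∑ i ∈ J, (2 : ℝ) ^ (i : ℕ)) / 2 ^ (m + 1)

/-- the subspace plus the direction with transversal coordinates `z` (`z i0 = 1`, `i0 ∉ J`) -/
def Dat.ext {m : ℕ} (D : Dat m) (i0 : Fin m) (z : Fin m → ℝ) : Dat m :=
  ⟨insert i0 D.J, fun i k => if k = i0 then z i else D.B i k - z i * D.B i0 k⟩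

/-! ### systems and the main statement -/

/-- sticky systems of depth `n`: the cell of level `k` of the line is almost determined by the cell of level `k`
of its direction -/
structure Sys (m n : ℕ) (η : ℝ) {Ω ζ : Type} [Fintype Ω] (μ : Ω → ℝ) (Z : Ω → ζ)
    (a x : Ω → Fin m → ℝ) : Prop where
  nn : ∀ ω, 0 ≤ μ ω
  ms : mass μ = 1
  ab : ∀ ω i, 0 ≤ a ω i ∧ a ω i < 1
  xb : ∀ ω i, 0 ≤ x ω i ∧ x ω i < 1
  st : ∀ k ≤ n, CH μ (fun ω => cel k (a ω)) (fun ω => (cel k (x ω), Z ω)) ≤ η * n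

/-- `γ` is an upper bound for the rate of the gap `H(x_n | Z) - H(C_n | Z, t)` -/
def Gap (m : ℕ) (γ : ℝ) : Prop :=
  ∀ ε : ℝ, 0 < ε → ∃ η : ℝ, 0 < η ∧ ∃ n0 : ℕ, ∀ n g : ℕ, n0 ≤ n → n ≤ g →
    ∀ (Ω ζ : Type) [Fintype Ω] (μ : Ω → ℝ) (Z : Ω → ζ) (a x : Ω → Fin m → ℝ), Sys m n η μ Z a x →
      CH μ (fun ω => cel n (x ω)) Z -
        (∑ t ∈ range (2 ^ g), CH μ (fun ω => cel n (Yt (ht g t) (a ω) (x ω))) Z) / 2 ^ g ≤ (γ + ε) * n

/-- the main theorem (discrete form) -/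
def ST_MAIN : Prop := ∀ m : ℕ, 1 ≤ m → Gap m 0

/-! ### polynomials -/

/-- mixed difference of `f` at `t` with steps `τ` -/
def mix {k : ℕ} (f : ℕ → ℝ) (t : ℕ) (τ : Fin k → ℕ) : ℝ :=
  ∑ A : Finset (Fin k), (-1 : ℝ) ^ A.card * f (t + ∑ i ∈ A, τ i)

/-- Lagrange interpolation -/
def interp {k : ℕ} (s : Fin k → ℝ) (b : Fin k → ℝ) (t : ℝ) : ℝ :=
  ∑ i, b i * ∏ j ∈ univ.erase i, ((t - s j) / (s i - s j))

end

end Pool.Agent.Helper69.RK
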