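import Pool.Agent.Helper69.RK.Defs

/-! Real sticky Kakeya sets: statements of the entropy library. All weights are finite and nonnegative, the mass
is arbitrary. -/

namespace Pool.Agent.Helper69.RK

open Finset

noncomputable section

open Classical in
/-- two conditionally independent copies given `G` -/
def cop2 {Ω γ : Type} [Fintype Ω] (μ : Ω → ℝ) (G : Ω → γ) : Ω × Ω → ℝ :=
  fun w => if G w.1 = G w.2 then μ w.1 * μ w.2 / pr μ G w.1 else 0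

open Classical in
/-- push-forward of the weights -/
def push {Ω Ω' : Type} [Fintype Ω'] (π : Ω' → Ω) (μ' : Ω' → ℝ) : Ω → ℝ :=
  fun ω => ∑ ω' : Ω', if π ω' = ω then μ' ω' else 0

/-- (E1) basic inequalities: nonnegativity, chain rule, submodularity -/
def ST_E1 : Prop :=
  ∀ (Ω α β γ : Type) [Fintype Ω] (μ : Ω → ℝ) (f : Ω → α) (h : Ω → β) (g : Ω → γ), (∀ ω, 0 ≤ μ ω) →
    0 ≤ CH μ f g ∧
    CH μ (fun ω => (f ω, h ω)) g = CH μ f g + CH μ h (fun ω => (f ω, g ω)) ∧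
    CH μ f (fun ω => (h ω, g ω)) ≤ CH μ f g

/-- (E2) dependence: `f` a function of `(f', g)`; conditioning on a finer variable -/
def ST_E2 : Prop :=
  (∀ (Ω α α' γ : Type) [Fintype Ω] (μ : Ω → ℝ) (f : Ω → α) (f' : Ω → α') (g : Ω → γ), (∀ ω, 0 ≤ μ ω) →
    Dep μ (fun ω => (f' ω, g ω)) f → CH μ f g ≤ CH μ f' g) ∧
  (∀ (Ω α γ γ' : Type) [Fintype Ω] (μ : Ω → ℝ) (f : Ω → α) (g : Ω → γ) (g' : Ω → γ'), (∀ ω, 0 ≤ μ ω) →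
    Dep μ g' g → CH μ f g' ≤ CH μ f g) ∧
  (∀ (Ω α γ : Type) [Fintype Ω] (μ : Ω → ℝ) (f : Ω → α) (g : Ω → γ), (∀ ω, 0 ≤ μ ω) →
    Dep μ g f → CH μ f g = 0)

open Classical in
/-- (E3) number of values -/
def ST_E3 : Prop :=
  (∀ (Ω α γ : Type) [Fintype Ω] (μ : Ω → ℝ) (f : Ω → α) (g : Ω → γ) (c : Ω → ℝ), (∀ ω, 0 ≤ μ ω) →
    (∀ ω, μ ω ≠ 0 → ((((univ : Finset Ω).filter (fun ω' => μ ω' ≠ 0 ∧ g ω' = g ω)).image f).card : ℝ) ≤ c ω) →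
    CH μ f g ≤ ∑ ω, μ ω * Real.logb 2 (c ω)) ∧
  (∀ (Ω γ : Type) [Fintype Ω] (m : ℕ) (μ : Ω → ℝ) (X : Ω → Fin m → ℤ) (g : Ω → γ) (K : ℝ), (∀ ω, 0 ≤ μ ω) →
    0 ≤ K → (∀ ω ω', μ ω ≠ 0 → μ ω' ≠ 0 → g ω = g ω' → ∀ i, |(X ω i : ℝ) - X ω' i| ≤ K) →
    CH μ X g ≤ m * Real.logb 2 (K + 1) * mass μ)

/-- (E4) restriction to events -/
def ST_E4 : Prop :=
  (∀ (Ω α γ : Type) [Fintype Ω] (μ : Ω → ℝ) (f : Ω → α) (g : Ω → γ) (E : Ω → Prop), (∀ ω, 0 ≤ μ ω) →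
    Dep μ g E → CH μ f g = CH (res μ E) f g + CH (res μ (fun ω => ¬ E ω)) f g) ∧
  (∀ (Ω α γ : Type) [Fintype Ω] (μ : Ω → ℝ) (f : Ω → α) (g : Ω → γ) (E : Ω → Prop), (∀ ω, 0 ≤ μ ω) →
    CH (res μ E) f g + CH (res μ (fun ω => ¬ E ω)) f g ≤ CH μ f g ∧
    CH μ f g ≤ CH (res μ E) f g + CH (res μ (fun ω => ¬ E ω)) f g + mass μ) ∧
  (∀ (Ω : Type) [Fintype Ω] (μ : Ω → ℝ) (E : Ω → Prop), (∀ ω, 0 ≤ μ ω) →
    mass μ = mass (res μ E) + mass (res μ (fun ω => ¬ E ω)) ∧ 0 ≤ mass (res μ E) ∧ ∀ ω, 0 ≤ res μ E ω)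

/-- (E5) push-forward and scaling -/
def ST_E5 : Prop :=
  (∀ (Ω Ω' α γ : Type) [Fintype Ω] [Fintype Ω'] (μ' : Ω' → ℝ) (π : Ω' → Ω) (f : Ω → α) (g : Ω → γ),
    (∀ ω, 0 ≤ μ' ω) →
    (∀ ω, 0 ≤ push π μ' ω) ∧ mass (push π μ') = mass μ' ∧
    CH (push π μ') f g = CH μ' (fun ω' => f (π ω')) (fun ω' => g (π ω'))) ∧
  (∀ (Ω α γ : Type) [Fintype Ω] (μ : Ω → ℝ) (f : Ω → α) (g : Ω → γ) (c : ℝ), 0 ≤ c → (∀ ω, 0 ≤ μ ω) →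
    CH (fun ω => c * μ ω) f g = c * CH μ f g)

/-- (E6) slices: a variable `s` with values in a finite set is part of the condition -/
def ST_E6 : Prop :=
  ∀ (Ω S α γ : Type) [Fintype Ω] [Fintype S] (lam : Ω × S → ℝ) (f : Ω × S → α) (g : Ω × S → γ),
    (∀ w, 0 ≤ lam w) →
    CH lam f (fun w => (g w, w.2)) =
      ∑ s : S, CH (fun ω => lam (ω, s)) (fun ω => f (ω, s)) (fun ω => g (ω, s))

/-- (E7) two conditionally independent copies -/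
def ST_E7 : Prop :=
  ∀ (Ω γ : Type) [Fintype Ω] (μ : Ω → ℝ) (G : Ω → γ), (∀ ω, 0 ≤ μ ω) →
    (∀ w, 0 ≤ cop2 μ G w) ∧
    (∀ w, cop2 μ G w ≠ 0 → G w.1 = G w.2 ∧ μ w.1 ≠ 0 ∧ μ w.2 ≠ 0) ∧
    (∀ w, cop2 μ G w = cop2 μ G (w.2, w.1)) ∧
    push Prod.fst (cop2 μ G) = μ ∧ push Prod.snd (cop2 μ G) = μ ∧
    (∀ (α β : Type) (f : Ω → α) (h : Ω → β),
      CH (cop2 μ G) (fun w => f w.1) (fun w => (h w.2, G w.1)) = CH μ f G)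

/-- (E8) `R` conditionally independent copies -/
def ST_E8 : Prop :=
  ∀ (Ω γ : Type) [Fintype Ω] (μ : Ω → ℝ) (G : Ω → γ) (R : ℕ), (∀ ω, 0 ≤ μ ω) → 1 ≤ R →
    ∃ (Ω' : Type) (_ : Fintype Ω') (μ' : Ω' → ℝ) (π : Fin R → Ω' → Ω),
      (∀ w, 0 ≤ μ' w) ∧ (∀ r, push (π r) μ' = μ) ∧
      (∀ w, μ' w ≠ 0 → ∀ r, μ (π r w) ≠ 0) ∧
      (∀ w, μ' w ≠ 0 → ∀ r r', G (π r w) = G (π r' w)) ∧
      (∀ (α : Type) (f : Fin R → Ω → α) (r0 : Fin R),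
        CH μ' (fun w => fun r => f r (π r w)) (fun w => G (π r0 w)) = ∑ r, CH μ (f r) G) ∧
      (∀ (α : Type) (F : (Fin R → Ω) → α) (e : Equiv.Perm (Fin R)) (r0 : Fin R),
        CH μ' (fun w => F (fun r => π (e r) w)) (fun w => G (π r0 w)) =
          CH μ' (fun w => F (fun r => π r w)) (fun w => G (π r0 w)))

open Classical in
/-- (E9) events of small conditional probability for a nearly uniform variable -/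
def ST_E9 : Prop :=
  ∀ (Ω α γ : Type) [Fintype Ω] (μ : Ω → ℝ) (τ : Ω → α) (F : Ω → γ) (E : Ω → Prop) (h q ε : ℝ), (∀ ω, 0 ≤ μ ω) →
    0 < h → 0 < q → q ≤ 1 →
    (∀ ω, μ ω ≠ 0 → ((((univ : Finset Ω).filter (fun ω' => μ ω' ≠ 0 ∧ F ω' = F ω)).image τ).card : ℝ) ≤ h) →
    (∀ ω, μ ω ≠ 0 → E ω →
      ((((univ : Finset Ω).filter (fun ω' => μ ω' ≠ 0 ∧ E ω' ∧ F ω' = F ω)).image τ).card : ℝ) ≤ q * h) →
    mass μ * Real.logb 2 h - ε ≤ CH μ τ F →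
    mass (res μ E) * Real.logb 2 (1 / q) ≤ ε + mass μ

/-- (E10) submodularity for sums in an abelian group (Kaimanovich-Vershik) with `r` nearly independent summands -/
def ST_E10 : Prop :=
  ∀ (Ω 𝔾 α γ : Type) [Fintype Ω] [AddCommGroup 𝔾] (r : ℕ) (μ : Ω → ℝ) (X : Ω → 𝔾) (A : Fin r → Ω → α)
    (L : Fin r → Ω → 𝔾) (G : Ω → γ) (ε : ℝ), (∀ ω, 0 ≤ μ ω) →
    (∀ b, Dep μ (fun ω => (A b ω, G ω)) (L b)) →
    (∑ b, CH μ (A b) G) - ε ≤ CH μ (fun ω b => A b ω) (fun ω => (X ω, G ω)) →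
    CH μ (fun ω => X ω - ∑ b, L b ω) G ≤
      CH μ X G + (∑ b, (CH μ (fun ω => X ω - L b ω) G - CH μ X G)) + 3 * r * ε

/-- (E11) conditioning on sums of neighbours: `S_b = (-1)^b S_0 + const` afterwards -/
def ST_E11 : Prop :=
  ∀ (Ω 𝔾 γ δ : Type) [Fintype Ω] [AddCommGroup 𝔾] (r : ℕ) (μ : Ω → ℝ) (X : Ω → δ) (S : Fin (r + 1) → Ω → 𝔾)
    (G : Ω → γ) (h ε ε' : ℝ), (∀ ω, 0 ≤ μ ω) →
    (∀ b, CH μ (S b) G = h) →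
    (∀ b b', b ≠ b' → CH μ (fun ω => S b ω + S b' ω) G ≤ h + ε) →
    (r + 1) * h - ε' ≤ CH μ (fun ω b => S b ω) (fun ω => (X ω, G ω)) →
    h - r * ε - ε' ≤
      CH μ (S 0) (fun ω => ((fun b : Fin r => S b.castSucc ω + S b.succ ω), G ω)) ∧
    CH μ X G - ε' ≤ CH μ X (fun ω => ((fun b => S b ω), G ω))

end

end Pool.Agent.Helper69.RK
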