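import Pool.Agent.Helper69.RK.Defs

/-! Real sticky Kakeya sets: statements of the elementary modules. -/

namespace Pool.Agent.Helper69.RK

open Finset

open Classical in
/-- (POLY) 99 percent Frechet equation: if almost all `(k+1)`-th mixed differences are at most `δ`, then `f` is
given up to `C δ` by the interpolation polynomial through `k + 1` nodes, for almost all nodes and points -/
def ST_POLY : Prop :=
  ∀ (k : ℕ) (ε : ℝ), 0 < ε → ∃ ε' : ℝ, 0 < ε' ∧ ∃ (C : ℝ) (N0 : ℕ), 0 ≤ C ∧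
    ∀ N : ℕ, N0 ≤ N → ∀ (f : ℕ → ℝ) (δ : ℝ), 0 ≤ δ →
      (((univ : Finset (Fin N × (Fin (k + 1) → Fin N))).filter
        (fun p => δ < |mix f p.1 (fun i => (p.2 i : ℕ))|)).card : ℝ) ≤ ε' * (N : ℝ) ^ (k + 2) →
      (((univ : Finset ((Fin (k + 1) → Fin N) × Fin N)).filter
        (fun p => ¬ (Function.Injective p.1 ∧
          |f p.2 - interp (fun i => ((p.1 i : ℕ) : ℝ)) (fun i => f (p.1 i)) (p.2 : ℕ)| ≤ C * δ))).card : ℝ) ≤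
        ε * (N : ℝ) ^ (k + 2)

/-- (SMALLV) small values of polynomials on the grid of `[0, 1]` -/
def ST_SMALLV : Prop :=
  ∀ d : ℕ, ∃ C : ℝ, 0 ≤ C ∧ ∀ c : Fin (d + 1) → ℝ, (∃ i, 1 ≤ |c i|) → ∀ (lam : ℝ) (h : ℕ), 0 < lam → lam ≤ 1 →
    1 ≤ h →
    (((range h).filter (fun τ : ℕ => |∑ i : Fin (d + 1), c i * ((τ : ℝ) / h) ^ (i : ℕ)| ≤ lam)).card : ℝ) ≤
      C * (lam ^ ((1 : ℝ) / (d + 1)) * h + 1)

/-- (LAGR) the coefficients of a polynomial are bounded by its values at `d + 1` separated points -/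
def ST_LAGR : Prop :=
  ∀ d : ℕ, ∃ C : ℝ, 0 ≤ C ∧ ∀ (c : Fin (d + 1) → ℝ) (s : Fin (d + 1) → ℝ) (δ L : ℝ), 0 < δ → δ ≤ 1 →
    (∀ i, 0 ≤ s i ∧ s i ≤ 1) → (∀ i j, i ≠ j → δ ≤ |s i - s j|) →
    (∀ j, |∑ i : Fin (d + 1), c i * (s j) ^ (i : ℕ)| ≤ L) → ∀ i, |c i| ≤ C * L / δ ^ d

open Classical in
/-- (CARD) the end of the proof: directions of the lines whose points at `N + 1` separated heights lie in given
cells of the transversal coordinates -/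
def ST_CARD : Prop :=
  ∀ m N : ℕ, 1 ≤ N → ∃ C : ℝ, 0 ≤ C ∧
    ∀ (K j' : ℝ) (l : ℕ) (J : Finset (Fin m)) (t : Fin (N + 1) → ℝ) (D : Fin (N + 1) → Dat m)
      (F : Finset ((Fin m → ℝ) × (Fin m → ℝ))), 1 ≤ K → 0 ≤ j' →
      (∀ b, 0 ≤ t b ∧ t b ≤ 1) → (∀ b b', b ≠ b' → (2 : ℝ) ^ (-j') ≤ |t b - t b'|) →
      (∀ b, (D b).J = J ∧ (D b).Bd K) →
      (∀ p ∈ F, ∀ i, (0 ≤ p.1 i ∧ p.1 i ≤ 1) ∧ (0 ≤ p.2 i ∧ p.2 i ≤ 1)) →
      (∀ p ∈ F, ∀ p' ∈ F, ∀ b i,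
        |(D b).N (Yt (t b) p.1 p.2) i - (D b).N (Yt (t b) p'.1 p'.2) i| ≤ K * (2 : ℝ) ^ (-(l : ℝ))) →
      Real.logb 2 ((F.image (fun p => cel l p.2)).card) ≤
        J.card * l + m * l / N + m * j' + C * (1 + Real.logb 2 K)

end Pool.Agent.Helper69.RK
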