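import Pool.Agent.Helper69.RK.StE
import Pool.Agent.Helper69.RK.StA

/-! Real sticky Kakeya sets: zooms, extremal systems, data, the maximality principle. -/

namespace Pool.Agent.Helper69.RK

open Finset

noncomputable section

/-- cell of the line -/
def xi {m : ℕ} (k : ℕ) (a x : Fin m → ℝ) : (Fin m → ℤ) × (Fin m → ℤ) := (cel k a, cel k x)

/-- magnification by `2 ^ k` -/
def zm {m : ℕ} (k : ℕ) (y : Fin m → ℝ) : Fin m → ℝ := fun i => Int.fract ((2 : ℝ) ^ k * y i)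

/-- the gap of a system -/
def gap {m : ℕ} {Ω ζ : Type} [Fintype Ω] (n g : ℕ) (μ : Ω → ℝ) (Z : Ω → ζ) (a x : Ω → Fin m → ℝ) : ℝ :=
  CH μ (fun ω => cel n (x ω)) Z -
    (∑ t ∈ range (2 ^ g), CH μ (fun ω => cel n (Yt (ht g t) (a ω) (x ω))) Z) / 2 ^ g

/-- (ZOOM) the magnification of a system on the cells of level `k1` -/
def ST_ZOOM : Prop :=
  (∀ (m n n' k1 : ℕ) (η : ℝ) (Ω ζ : Type) [Fintype Ω] (μ : Ω → ℝ) (Z : Ω → ζ) (a x : Ω → Fin m → ℝ),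
    Sys m n η μ Z a x → k1 + n' ≤ n → 0 < n' →
    Sys m n' (η * n / n') μ (fun ω => (xi k1 (a ω) (x ω), Z ω)) (fun ω => zm k1 (a ω)) (fun ω => zm k1 (x ω))) ∧
  (∀ (m k k1 : ℕ) (Ω γ : Type) [Fintype Ω] (μ : Ω → ℝ) (G : Ω → γ) (a x : Ω → Fin m → ℝ), (∀ ω, 0 ≤ μ ω) →
    CH μ (fun ω => cel k (zm k1 (x ω))) (fun ω => (xi k1 (a ω) (x ω), G ω)) =
      CH μ (fun ω => cel (k1 + k) (x ω)) (fun ω => (xi k1 (a ω) (x ω), G ω)) ∧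
    ∀ t : ℝ, |CH μ (fun ω => cel k (Yt t (zm k1 (a ω)) (zm k1 (x ω)))) (fun ω => (xi k1 (a ω) (x ω), G ω)) -
      CH μ (fun ω => cel (k1 + k) (Yt t (a ω) (x ω))) (fun ω => (xi k1 (a ω) (x ω), G ω))| ≤ 2 * m * mass μ)

/-- (WIN) near-maximizers of the gap: no information of the coarse line on the profile -/
def ST_WIN : Prop :=
  ∀ (m : ℕ) (γ : ℝ), 1 ≤ m → 0 ≤ γ → Gap m γ → ∀ ε : ℝ, 0 < ε → ∃ η : ℝ, 0 < η ∧ ∃ n0 : ℕ,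
    ∀ n g : ℕ, n0 ≤ n → n ≤ g →
    ∀ (Ω ζ : Type) [Fintype Ω] (μ : Ω → ℝ) (Z : Ω → ζ) (a x : Ω → Fin m → ℝ), Sys m n η μ Z a x →
    (γ - η) * n ≤ gap n g μ Z a x → ∀ k1 k2 : ℕ, k1 ≤ k2 → k2 ≤ n →
    (∑ t ∈ range (2 ^ g), (CH μ (fun ω => cel k2 (Yt (ht g t) (a ω) (x ω)))
        (fun ω => (cel k1 (Yt (ht g t) (a ω) (x ω)), Z ω)) -
      CH μ (fun ω => cel k2 (Yt (ht g t) (a ω) (x ω)))
        (fun ω => (xi k1 (a ω) (x ω), cel k1 (Yt (ht g t) (a ω) (x ω)), Z ω)))) / 2 ^ g ≤ ε * n ∧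
    γ * (k2 - k1) - ε * n ≤ CH μ (fun ω => cel k2 (x ω)) (fun ω => (xi k1 (a ω) (x ω), Z ω)) -
      (∑ t ∈ range (2 ^ g), CH μ (fun ω => cel k2 (Yt (ht g t) (a ω) (x ω)))
        (fun ω => (xi k1 (a ω) (x ω), Z ω))) / 2 ^ g

/-- near-maximizers of the gap exist -/
def NearMax (m : ℕ) (γ : ℝ) : Prop :=
  ∀ η : ℝ, 0 < η → ∀ n0 : ℕ, ∃ n g : ℕ, n0 ≤ n ∧ n ≤ g ∧
    ∃ (Ω ζ : Type) (_ : Fintype Ω) (μ : Ω → ℝ) (Z : Ω → ζ) (a x : Ω → Fin m → ℝ), Sys m n η μ Z a x ∧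
      (γ - η) * n ≤ gap n g μ Z a x

/-- (GS) the best rate -/
def ST_GS : Prop := ∀ m : ℕ, 1 ≤ m → ∃ γ : ℝ, 0 ≤ γ ∧ Gap m γ ∧ NearMax m γ

/-- systems with a random height and random data -/
structure DSys (m n g : ℕ) (η γ : ℝ) {Ω ζ : Type} [Fintype Ω] (μ : Ω → ℝ) (Z : Ω → ζ)
    (a x : Ω → Fin m → ℝ) (t : Ω → ℕ) (D : Ω → Dat m) : Prop where
  sys : Sys m n η μ Z a x
  tl : ∀ ω, t ω < 2 ^ g
  ti : ∀ s < 2 ^ g, ∀ ω, pr (res μ (fun ω' => t ω' = s)) (fun ω' => (Z ω', a ω', x ω')) ω =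
    pr μ (fun ω' => (Z ω', a ω', x ω')) ω / 2 ^ g
  gp : (γ - η) * n ≤ CH μ (fun ω => cel n (x ω)) Z -
    CH μ (fun ω => cel n (Yt (ht g (t ω)) (a ω) (x ω))) (fun ω => (t ω, Z ω))
  bd : ∀ ω, (D ω).Bd ((2 : ℝ) ^ (η * n))
  inf : CH μ (fun ω => (a ω, x ω)) Z - CH μ (fun ω => (a ω, x ω)) (fun ω => (D ω, t ω, Z ω)) ≤ η * n
  sat : (∑ ω, μ ω * (D ω).J.card) * n -
    CH μ (fun ω => cel n ((D ω).v (Yt (ht g (t ω)) (a ω) (x ω))))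
      (fun ω => (cel n ((D ω).N (Yt (ht g (t ω)) (a ω) (x ω))), D ω, t ω, Z ω)) ≤ η * n

/-- `R` is an upper bound for the mean weight of the data -/
def UBR (m : ℕ) (γ R : ℝ) : Prop :=
  ∀ ε : ℝ, 0 < ε → ∃ η : ℝ, 0 < η ∧ ∃ n0 : ℕ, ∀ n g : ℕ, n0 ≤ n → n ≤ g →
    ∀ (Ω ζ : Type) [Fintype Ω] (μ : Ω → ℝ) (Z : Ω → ζ) (a x : Ω → Fin m → ℝ) (t : Ω → ℕ) (D : Ω → Dat m),
      DSys m n g η γ μ Z a x t D → ∑ ω, μ ω * wt (D ω).J ≤ R + ε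

/-- (RS) the best mean weight -/
def ST_RS : Prop :=
  ∀ (m : ℕ) (γ : ℝ), 1 ≤ m → NearMax m γ → ∃ R : ℝ, UBR m γ R ∧
    ∀ η : ℝ, 0 < η → ∀ n0 : ℕ, ∃ n g : ℕ, n0 ≤ n ∧ n ≤ g ∧
      ∃ (Ω ζ : Type) (_ : Fintype Ω) (μ : Ω → ℝ) (Z : Ω → ζ) (a x : Ω → Fin m → ℝ) (t : Ω → ℕ)
        (D : Ω → Dat m), DSys m n g η γ μ Z a x t D ∧ R - η ≤ ∑ ω, μ ω * wt (D ω).J

/-- `I(D's at the heights s; line | Z)` -/
def iD {m : ℕ} {Ω ζ : Type} [Fintype Ω] {r : ℕ} (μ : Ω → ℝ) (Z : Ω → ζ) (a x : Ω → Fin m → ℝ)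
    (D : ℕ → Ω → Dat m) (s : Fin r → ℕ) : ℝ :=
  CH μ (fun ω => (a ω, x ω)) Z - CH μ (fun ω => (a ω, x ω)) (fun ω => ((fun i => D (s i) ω), Z ω))

/-- the working structure: data at all heights, conditionally independent given `(Z, line)` -/
structure Base (m n g : ℕ) (η γ R : ℝ) {Ω ζ : Type} [Fintype Ω] (μ : Ω → ℝ) (Z : Ω → ζ)
    (a x : Ω → Fin m → ℝ) (D : ℕ → Ω → Dat m) : Prop where
  sys : Sys m n η μ Z a x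
  gp : (γ - η) * n ≤ gap n g μ Z a x
  bd : ∀ t < 2 ^ g, ∀ ω, (D t ω).Bd ((2 : ℝ) ^ (η * n))
  inf : (∑ t ∈ range (2 ^ g), iD μ Z a x D (fun _ : Fin 1 => t)) / 2 ^ g ≤ η * n
  ci : ∀ (r : ℕ) (s : Fin r → ℕ), (∀ i, s i < 2 ^ g) →
    iD μ Z a x D s ≤ ∑ i, iD μ Z a x D (fun _ : Fin 1 => s i)
  sat : (∑ t ∈ range (2 ^ g), ((∑ ω, μ ω * (D t ω).J.card) * n -
    CH μ (fun ω => cel n ((D t ω).v (Yt (ht g t) (a ω) (x ω))))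
      (fun ω => (cel n ((D t ω).N (Yt (ht g t) (a ω) (x ω))), D t ω, Z ω)))) / 2 ^ g ≤ η * n
  big : R - η ≤ (∑ t ∈ range (2 ^ g), ∑ ω, μ ω * wt (D t ω).J) / 2 ^ g

/-- (PROD) from one random height to all heights -/
def ST_PROD : Prop :=
  ∀ (m n g : ℕ) (η γ R : ℝ) (Ω ζ : Type) [Fintype Ω] (μ : Ω → ℝ) (Z : Ω → ζ) (a x : Ω → Fin m → ℝ)
    (t : Ω → ℕ) (D : Ω → Dat m), DSys m n g η γ μ Z a x t D → R - η ≤ ∑ ω, μ ω * wt (D ω).J →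
    ∃ (Ω' : Type) (_ : Fintype Ω') (μ' : Ω' → ℝ) (Z' : Ω' → ζ) (a' x' : Ω' → Fin m → ℝ) (D' : ℕ → Ω' → Dat m),
      Base m n g η γ R μ' Z' a' x' D'

open Classical in
/-- (MAXI) maximality: new data on a window `[k1, k2]` at heights of a random configuration `i` cannot increase
the mean weight -/
def ST_MAXI : Prop :=
  ∀ (m : ℕ) (γ R : ℝ), 1 ≤ m → 0 ≤ γ → Gap m γ → UBR m γ R → ∀ ε κ : ℝ, 0 < ε → 0 < κ →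
    ∃ η : ℝ, 0 < η ∧ ∃ n0 : ℕ, ∀ n g : ℕ, n0 ≤ n → n ≤ g →
    ∀ (Ω ζ : Type) [Fintype Ω] (μ : Ω → ℝ) (Z : Ω → ζ) (a x : Ω → Fin m → ℝ) (D : ℕ → Ω → Dat m),
    Base m n g η γ R μ Z a x D → ∀ k1 k2 : ℕ, k1 ≤ k2 → k2 ≤ n → κ * n ≤ (k2 : ℝ) - k1 →
    ∀ (ι Ω' : Type) [Fintype ι] [Fintype Ω'] (w : ι → ℝ) (tt : ι → ℕ) (μ' : ι → Ω' → ℝ)
      (π : ι → Ω' → Ω) (D' : ι → Ω' → Dat m),
      (∀ i, 0 ≤ w i) → (∀ i, tt i < 2 ^ g) →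
      (∀ s < 2 ^ g, ∑ i, (if tt i = s then w i else 0) ≤ 1 / 2 ^ g) →
      (∀ i ω, 0 ≤ μ' i ω) → (∀ i, push (π i) (μ' i) = μ) → (∀ i ω, (D' i ω).Bd ((2 : ℝ) ^ (η * n))) →
      ∑ i, w i * (CH μ (fun ω => (a ω, x ω)) (fun ω => (xi k1 (a ω) (x ω), Z ω)) -
        CH (μ' i) (fun ω => (a (π i ω), x (π i ω)))
          (fun ω => (D' i ω, xi k1 (a (π i ω)) (x (π i ω)), Z (π i ω)))) ≤ η * n →
      ∑ i, w i * ((∑ ω, μ' i ω * (D' i ω).J.card) * ((k2 : ℝ) - k1) -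
        CH (μ' i) (fun ω => cel k2 ((D' i ω).v (Yt (ht g (tt i)) (a (π i ω)) (x (π i ω)))))
          (fun ω => (cel k2 ((D' i ω).N (Yt (ht g (tt i)) (a (π i ω)) (x (π i ω)))), D' i ω,
            xi k1 (a (π i ω)) (x (π i ω)), Z (π i ω)))) ≤ η * n →
      ∑ i, w i * ((∑ ω, μ' i ω * wt (D' i ω).J) - ∑ ω, μ ω * wt (D (tt i) ω).J) ≤ ε

end

end Pool.Agent.Helper69.RK
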