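import Pool.Agent.Helper69.RK.StB

/-! Real sticky Kakeya sets: statements at fixed heights. `G` collects the parameter `Z` and all data `D`. -/

namespace Pool.Agent.Helper69.RK

open Finset

noncomputable section

/-- (SATW) consequences of the saturation of the profile along the subspace, for windows `k1 ≤ k2 ≤ n` and events
depending on `G` -/
def ST_SATW : Prop :=
  ∀ m : ℕ, ∃ C : ℝ, 0 ≤ C ∧ ∀ (Ω ζ γ : Type) [Fintype Ω] (μ : Ω → ℝ) (Z : Ω → ζ) (G : Ω → γ)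
    (a x : Ω → Fin m → ℝ) (D : Ω → Dat m) (t K e1 e2 e3 : ℝ) (n k1 k2 : ℕ),
    (∀ ω, 0 ≤ μ ω) → mass μ = 1 → (∀ ω i, 0 ≤ a ω i ∧ a ω i < 1) → (∀ ω i, 0 ≤ x ω i ∧ x ω i < 1) →
    0 ≤ t → t ≤ 1 → 1 ≤ K → k1 ≤ k2 → k2 ≤ n → 0 ≤ e3 → (∀ ω, (D ω).Bd K) → Dep μ G D → Dep μ G Z →
    CH μ (fun ω => cel k2 (Yt t (a ω) (x ω))) (fun ω => (cel k1 (Yt t (a ω) (x ω)), Z ω)) -
      CH μ (fun ω => cel k2 (Yt t (a ω) (x ω)))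
        (fun ω => (xi k1 (a ω) (x ω), cel k1 (Yt t (a ω) (x ω)), Z ω)) ≤ e1 →
    CH μ (fun ω => (a ω, x ω)) Z - CH μ (fun ω => (a ω, x ω)) G ≤ e2 →
    (∑ ω, μ ω * (D ω).J.card) * n -
      CH μ (fun ω => cel n ((D ω).v (Yt t (a ω) (x ω)))) (fun ω => (cel n ((D ω).N (Yt t (a ω) (x ω))), G ω)) ≤
        e3 →
    ∀ E : Ω → Prop, Dep μ G E →
      (∑ ω, res μ E ω * (D ω).J.card) * ((k2 : ℝ) - k1) -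
        CH (res μ E) (fun ω => cel k2 ((D ω).v (Yt t (a ω) (x ω))))
          (fun ω => (cel k2 ((D ω).N (Yt t (a ω) (x ω))), xi k1 (a ω) (x ω), G ω)) ≤
            C * (e1 + e2 + e3 + 1 + Real.logb 2 K) ∧
      CH (res μ E) (fun ω => cel k2 ((D ω).N (Yt t (a ω) (x ω))))
          (fun ω => (cel k1 ((D ω).N (Yt t (a ω) (x ω))), G ω)) -
        CH (res μ E) (fun ω => cel k2 ((D ω).N (Yt t (a ω) (x ω))))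
          (fun ω => (xi k1 (a ω) (x ω), cel k1 ((D ω).N (Yt t (a ω) (x ω))), G ω)) ≤
            C * (e1 + e2 + e3 + 1 + Real.logb 2 K) ∧
      (∑ ω, res μ E ω * (D ω).J.card) * (k2 : ℝ) -
        CH (res μ E) (fun ω => cel k2 ((D ω).v (Yt t (a ω) (x ω))))
          (fun ω => (cel n ((D ω).N (Yt t (a ω) (x ω))), G ω)) ≤ C * (e1 + e2 + e3 + 1 + Real.logb 2 K)

/-- (EXTR) adding an extra direction `z` to the subspace on the event `Bad` -/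
def ST_EXTR : Prop :=
  ∀ m : ℕ, ∃ C : ℝ, 0 ≤ C ∧ ∀ (Ω ζ θ : Type) [Fintype Ω] (μ : Ω → ℝ) (Z : Ω → ζ) (Θ : Ω → θ)
    (a x : Ω → Fin m → ℝ) (D D' : Ω → Dat m) (i0 : Ω → Fin m) (z : Ω → Fin m → ℝ) (Bad : Ω → Prop)
    (t K e1 e2 e3 : ℝ) (k1 k2 : ℕ),
    (∀ ω, 0 ≤ μ ω) → mass μ = 1 → (∀ ω i, 0 ≤ a ω i ∧ a ω i < 1) → (∀ ω i, 0 ≤ x ω i ∧ x ω i < 1) →
    0 ≤ t → t ≤ 1 → 1 ≤ K → k1 ≤ k2 → 0 ≤ e2 → 0 ≤ e3 → (∀ ω, (D ω).Bd K) →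
    Dep μ (fun ω => (Θ ω, D ω, xi k1 (a ω) (x ω), Z ω)) (fun ω => (D' ω, Bad ω)) →
    (∀ ω, μ ω ≠ 0 → Bad ω → D' ω = (D ω).ext (i0 ω) (z ω) ∧ i0 ω ∉ (D ω).J ∧ z ω (i0 ω) = 1 ∧
      ∀ i, |z ω i| ≤ K) →
    (∀ ω, μ ω ≠ 0 → ¬ Bad ω → D' ω = D ω) →
    CH μ (fun ω => (a ω, x ω)) (fun ω => (xi k1 (a ω) (x ω), Z ω)) -
      CH μ (fun ω => (a ω, x ω)) (fun ω => (Θ ω, D ω, xi k1 (a ω) (x ω), Z ω)) ≤ e1 →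
    (∑ ω, μ ω * (D ω).J.card) * ((k2 : ℝ) - k1) -
      CH μ (fun ω => cel k2 ((D ω).v (Yt t (a ω) (x ω))))
        (fun ω => (cel k2 ((D ω).N (Yt t (a ω) (x ω))), D ω, xi k1 (a ω) (x ω), Z ω)) ≤ e2 →
    mass (res μ Bad) * ((k2 : ℝ) - k1) -
      CH (res μ Bad) (fun ω => cel k2 ((D ω).N (Yt t (a ω) (x ω))))
        (fun ω => (cel k2 ((D' ω).N (Yt t (a ω) (x ω))), Θ ω, D ω, xi k1 (a ω) (x ω), Z ω)) ≤ e3 →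
    CH μ (fun ω => (a ω, x ω)) (fun ω => (xi k1 (a ω) (x ω), Z ω)) -
      CH μ (fun ω => (a ω, x ω)) (fun ω => (D' ω, xi k1 (a ω) (x ω), Z ω)) ≤ e1 ∧
    (∑ ω, μ ω * (D' ω).J.card) * ((k2 : ℝ) - k1) -
      CH μ (fun ω => cel k2 ((D' ω).v (Yt t (a ω) (x ω))))
        (fun ω => (cel k2 ((D' ω).N (Yt t (a ω) (x ω))), D' ω, xi k1 (a ω) (x ω), Z ω)) ≤
      C * (e1 + e2 + e3 + 1 + Real.logb 2 K)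

/-- (SEG1) `X` moves along a segment with direction `q` when the real parameter `r` moves; `z = q / q_{i0}` -/
def ST_SEG1 : Prop :=
  ∀ m : ℕ, ∃ C : ℝ, 0 ≤ C ∧ ∀ (Ω γ δ : Type) [Fintype Ω] (μ : Ω → ℝ) (Γ : Ω → γ) (G : Ω → δ)
    (X : Ω → Fin m → ℝ) (r : Ω → ℝ) (q : Ω → Fin m → ℝ) (i0 : Ω → Fin m) (K e : ℝ) (k1 l' : ℕ),
    (∀ ω, 0 ≤ μ ω) → mass μ ≤ 1 → 1 ≤ K → k1 ≤ l' → 0 ≤ e → Dep μ Γ G → Dep μ G (fun ω => (q ω, i0 ω)) →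
    (∀ ω, μ ω ≠ 0 → q ω (i0 ω) ≠ 0 ∧ ∀ i, |q ω i| ≤ K * |q ω (i0 ω)|) →
    (∀ ω ω', μ ω ≠ 0 → μ ω' ≠ 0 → Γ ω = Γ ω' → ∀ i,
      |X ω i - X ω' i - (r ω - r ω') * q ω i| ≤ K * (2 : ℝ) ^ (-(l' : ℝ))) →
    (mass μ * ((l' : ℝ) - k1) - (CH μ (fun ω => ⌊(2 : ℝ) ^ l' * (q ω (i0 ω) * r ω)⌋) Γ -
      CH μ (fun ω => ⌊(2 : ℝ) ^ k1 * (q ω (i0 ω) * r ω)⌋) Γ) ≤ e) →
    mass μ * ((l' : ℝ) - k1) -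
      CH μ (fun ω => cel l' (X ω)) (fun ω => (cel l' (fun i => X ω i - q ω i / q ω (i0 ω) * X ω (i0 ω)),
        cel k1 (X ω), G ω)) ≤ C * (e + 1 + Real.logb 2 K)

/-- (SEGM) `X = h(X0) + c v` with `v` uniform in `ℝ^J` given `X0`, `c` a matrix with largest entry
`c_{i0,k0} ≥ 2^(-k1)` -/
def ST_SEGM : Prop :=
  ∀ m : ℕ, ∃ C : ℝ, 0 ≤ C ∧ ∀ (Ω α γ : Type) [Fintype Ω] (μ : Ω → ℝ) (X0 : Ω → α) (G : Ω → γ)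
    (X : Ω → Fin m → ℝ) (v : Ω → Fin m → ℝ) (J : Ω → Finset (Fin m)) (c : Ω → Fin m → Fin m → ℝ)
    (i0 k0 : Ω → Fin m) (K e : ℝ) (k1 l' q : ℕ),
    (∀ ω, 0 ≤ μ ω) → mass μ ≤ 1 → 1 ≤ K → k1 ≤ l' → 0 ≤ e →
    Dep μ G (fun ω => (J ω, c ω, i0 ω, k0 ω)) →
    (∀ ω, μ ω ≠ 0 → i0 ω ∉ J ω ∧ k0 ω ∈ J ω ∧ (2 : ℝ) ^ (-(k1 : ℝ)) ≤ |c ω (i0 ω) (k0 ω)| ∧
      (∀ i ∉ J ω, ∀ k ∈ J ω, |c ω i k| ≤ |c ω (i0 ω) (k0 ω)|) ∧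
      |c ω (i0 ω) (k0 ω)| ≤ K * (2 : ℝ) ^ ((q : ℝ) - l') ∧
      (∀ i ∈ J ω, X ω i = 0) ∧ (∀ k, |v ω k| ≤ K) ∧ (∀ k ∉ J ω, v ω k = 0)) →
    (∀ ω ω', μ ω ≠ 0 → μ ω' ≠ 0 → X0 ω = X0 ω' → G ω = G ω' → ∀ i ∉ J ω,
      |X ω i - X ω' i - ∑ k ∈ J ω, c ω i k * (v ω k - v ω' k)| ≤ K * (2 : ℝ) ^ (-(l' : ℝ))) →
    (∑ ω, μ ω * (J ω).card) * q - CH μ (fun ω => cel q (v ω)) (fun ω => (X0 ω, G ω)) ≤ e →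
    mass μ * ((l' : ℝ) - k1) -
      CH μ (fun ω => cel l' (X ω))
        (fun ω => (cel l' (fun i => if i ∈ insert (i0 ω) (J ω) then 0 else
          X ω i - c ω i (k0 ω) / c ω (i0 ω) (k0 ω) * X ω (i0 ω)), cel k1 (X ω), G ω)) ≤
      C * (e + 1 + Real.logb 2 K)

/-- (STAB) stability of the profile when the height moves: `l' = l + j`, heights at distance `2^(-j)` -/
def ST_STAB : Prop :=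
  ∀ m : ℕ, ∃ C : ℝ, 0 ≤ C ∧ ∀ (Ω γ : Type) [Fintype Ω] (μ : Ω → ℝ) (G : Ω → γ)
    (a x : Ω → Fin m → ℝ) (D D' : Ω → Dat m) (t t' K e1 e2 : ℝ) (l j : ℕ),
    (∀ ω, 0 ≤ μ ω) → mass μ ≤ 1 → (∀ ω i, 0 ≤ a ω i ∧ a ω i < 1) → (∀ ω i, 0 ≤ x ω i ∧ x ω i < 1) →
    0 ≤ t → t ≤ 1 → 0 ≤ t' → t' ≤ 1 → |t - t'| ≤ (2 : ℝ) ^ (-(j : ℝ)) → 1 ≤ K →
    Dep μ G (fun ω => (D ω, D' ω)) →
    (∀ ω, μ ω ≠ 0 → (D ω).Bd K ∧ (D' ω).Bd K ∧ (D ω).J = (D' ω).J ∧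
      ∀ i ∉ (D ω).J, ∀ k ∈ (D ω).J, |(D' ω).B i k - (D ω).B i k| ≤ K * (2 : ℝ) ^ (-(j : ℝ))) →
    CH μ (fun ω => cel (l + j) ((D ω).N (Yt t (a ω) (x ω)))) (fun ω => (cel l ((D ω).N (Yt t (a ω) (x ω))), G ω)) -
      CH μ (fun ω => cel (l + j) ((D ω).N (Yt t (a ω) (x ω))))
        (fun ω => (xi l (a ω) (x ω), cel l ((D ω).N (Yt t (a ω) (x ω))), G ω)) ≤ e1 →
    CH μ (fun ω => cel (l + j) ((D' ω).N (Yt t' (a ω) (x ω))))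
        (fun ω => (cel l ((D' ω).N (Yt t' (a ω) (x ω))), G ω)) -
      CH μ (fun ω => cel (l + j) ((D' ω).N (Yt t' (a ω) (x ω))))
        (fun ω => (xi l (a ω) (x ω), cel l ((D' ω).N (Yt t' (a ω) (x ω))), G ω)) ≤ e1 →
    CH μ (fun ω => cel l ((D' ω).N (Yt t' (a ω) (x ω)))) (fun ω => (cel l ((D ω).N (Yt t (a ω) (x ω))), G ω)) ≤ e2 →
    CH μ (fun ω => cel l ((D ω).N (Yt t (a ω) (x ω)))) (fun ω => (cel l ((D' ω).N (Yt t' (a ω) (x ω))), G ω)) ≤ e2 →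
    CH μ (fun ω => cel (l + j) ((D' ω).N (Yt t' (a ω) (x ω))))
        (fun ω => (cel l ((D ω).N (Yt t (a ω) (x ω))), G ω)) ≤
      CH μ (fun ω => cel (l + j) ((D ω).N (Yt t (a ω) (x ω))))
        (fun ω => (cel l ((D ω).N (Yt t (a ω) (x ω))), G ω)) + C * (e1 + e2 + 1 + Real.logb 2 K) ∧
    CH μ (fun ω => cel (l + j) ((D' ω).N (Yt t' (a ω) (x ω))))
        (fun ω => (cel l ((D ω).N (Yt t (a ω) (x ω))), G ω)) -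
      CH μ (fun ω => cel (l + j) ((D' ω).N (Yt t' (a ω) (x ω))))
        (fun ω => (xi l (a ω) (x ω), cel l ((D ω).N (Yt t (a ω) (x ω))), G ω)) ≤
      C * (e1 + e2 + 1 + Real.logb 2 K)

/-- (MEAS) conditioning on the coarse line instead of the coarse profile -/
def ST_MEAS : Prop :=
  ∀ m : ℕ, ∃ C : ℝ, 0 ≤ C ∧ ∀ (Ω α γ : Type) [Fintype Ω] (μ : Ω → ℝ) (ξ : Ω → α) (G : Ω → γ)
    (X X1 : Ω → Fin m → ℝ) (K e1 e2 : ℝ) (k1 l' : ℕ),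
    (∀ ω, 0 ≤ μ ω) → mass μ ≤ 1 → 1 ≤ K → k1 ≤ l' → 0 ≤ e2 →
    (∀ ω ω', μ ω ≠ 0 → μ ω' ≠ 0 → ξ ω = ξ ω' → G ω = G ω' → ∀ i, |(cel k1 (X ω) i : ℝ) - cel k1 (X ω') i| ≤ K) →
    (∀ ω ω', μ ω ≠ 0 → μ ω' ≠ 0 → cel l' (X ω) = cel l' (X ω') → G ω = G ω' →
      ∀ i, |(cel l' (X1 ω) i : ℝ) - cel l' (X1 ω') i| ≤ K) →
    CH μ (fun ω => cel l' (X ω)) (fun ω => (cel k1 (X ω), G ω)) -
      CH μ (fun ω => cel l' (X ω)) (fun ω => (ξ ω, cel k1 (X ω), G ω)) ≤ e1 →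
    mass μ * ((l' : ℝ) - k1) -
      CH μ (fun ω => cel l' (X ω)) (fun ω => (cel l' (X1 ω), cel k1 (X ω), G ω)) ≤ e2 →
    mass μ * ((l' : ℝ) - k1) -
      CH μ (fun ω => cel l' (X ω)) (fun ω => (cel l' (X1 ω), ξ ω, G ω)) ≤ C * (e1 + e2 + 1 + Real.logb 2 K)

/-- (DBL) copies of the line: `S` is a block sum with small doubling, `T` the sums of neighbouring blocks -/
def ST_DBL : Prop :=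
  ∀ (m r : ℕ) (δ : ℝ), 0 < δ → ∃ C : ℝ, 0 ≤ C ∧ ∀ (Ω γ : Type) [Fintype Ω] (μ : Ω → ℝ) (X : Ω → Fin m → ℤ)
    (A : Ω → (Fin m → ℤ) × (Fin m → ℤ)) (G : Ω → γ)
    (Φ : Fin (r + 1) → γ → (Fin m → ℤ) × (Fin m → ℤ) → Fin m → ℤ) (K e1 e2 : ℝ) (L : ℕ),
    (∀ ω, 0 ≤ μ ω) → mass μ ≤ 1 → 1 ≤ K → 0 ≤ e1 → 0 ≤ e2 →
    (∀ ω, μ ω ≠ 0 → ∀ i, |((A ω).1 i : ℝ)| ≤ 2 ^ L ∧ |((A ω).2 i : ℝ)| ≤ 2 ^ L) →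
    (∀ ω, μ ω ≠ 0 → ∀ b u u' i,
      |(Φ b (G ω) (u + u') i : ℝ) - Φ b (G ω) u i - Φ b (G ω) u' i| ≤ K) →
    CH μ A G - CH μ A (fun ω => (X ω, G ω)) ≤ e1 →
    (∀ b, CH μ (fun ω => X ω - Φ b (G ω) (A ω)) G ≤ CH μ X G + e2) →
    ∃ (Ω' τ : Type) (_ : Fintype Ω') (μ' : Ω' → ℝ) (ϖ : Ω' → Ω) (S : Ω' → (Fin m → ℤ) × (Fin m → ℤ))
      (T : Ω' → τ), (∀ w, 0 ≤ μ' w) ∧ push ϖ μ' = μ ∧
      (∀ w, μ' w ≠ 0 → ∀ i, |((S w).1 i : ℝ)| ≤ C * 2 ^ L ∧ |((S w).2 i : ℝ)| ≤ C * 2 ^ L) ∧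
      CH μ X G - C * e1 ≤ CH μ' (fun w => X (ϖ w)) (fun w => (S w, T w, G (ϖ w))) ∧
      CH μ' (fun w => X (ϖ w) - ∑ b : Fin (r + 1), (-1 : ℤ) ^ (b : ℕ) • Φ b (G (ϖ w)) (S w)) (fun w => (T w, G (ϖ w))) ≤
        CH μ X G + C * (e1 + e2 + 1 + Real.logb 2 K) ∧
      ∀ ψ : γ → (Fin m → ℤ) × (Fin m → ℤ) → Fin m → ℤ,
        (∀ ω, μ ω ≠ 0 → ∀ u u' i, |(ψ (G ω) (u + u') i : ℝ) - ψ (G ω) u i - ψ (G ω) u' i| ≤ K) →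
        CH μ (fun ω => ψ (G ω) (A ω)) G - δ * L - C * (e1 + 1 + Real.logb 2 K) ≤
          CH μ' (fun w => ψ (G (ϖ w)) (S w)) (fun w => (T w, G (ϖ w)))

/-- (DIFF) the difference step at fixed heights: if the largest entry of the `(k+1)`-th mixed difference `c` of `B`
is at least `2^(-k1)`, then the profile is saturated in the direction of a column of `c` on `[k1, l + j]`.
`D A`, `A ⊆ Fin (k+1)`, are the data at the heights `t + ∑_{i ∈ A} τ i`. -/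
def ST_DIFF : Prop :=
  ∀ (m k : ℕ) (δ : ℝ), 1 ≤ k → 0 < δ → ∃ C : ℝ, 0 ≤ C ∧ ∀ (Ω γ : Type) [Fintype Ω] (μ : Ω → ℝ) (G : Ω → γ)
    (a x : Ω → Fin m → ℝ) (J : Ω → Finset (Fin m)) (D : Finset (Fin (k + 1)) → Ω → Dat m)
    (c : Ω → Fin m → Fin m → ℝ) (i0 k0 : Ω → Fin m)
    (t K e1 e2 e3 : ℝ) (τ : Fin (k + 1) → ℝ) (k1 l j : ℕ),
    (∀ ω, 0 ≤ μ ω) → mass μ ≤ 1 → (∀ ω i, 0 ≤ a ω i ∧ a ω i < 1) → (∀ ω i, 0 ≤ x ω i ∧ x ω i < 1) →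
    0 ≤ t → t ≤ 1 → (∀ i, 0 ≤ τ i) → (∑ i, τ i ≤ (2 : ℝ) ^ (-(j : ℝ))) → t + ∑ i, τ i ≤ 1 → 1 ≤ K →
    k1 ≤ l + j → j ≤ l → 0 ≤ e1 → 0 ≤ e2 → 0 ≤ e3 →
    Dep μ G (fun ω => (J ω, (fun A => D A ω), i0 ω, k0 ω)) →
    (∀ ω i k', c ω i k' = ∑ A : Finset (Fin (k + 1)), (-1 : ℝ) ^ A.card * (D A ω).B i k') →
    (∀ ω, μ ω ≠ 0 → (∀ A, (D A ω).Bd K ∧ (D A ω).J = J ω ∧
        ∀ i ∉ J ω, ∀ k' ∈ J ω, |(D A ω).B i k' - (D ∅ ω).B i k'| ≤ K * (2 : ℝ) ^ (-(j : ℝ))) ∧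
      (∀ i ∉ J ω, ∀ k' ∈ J ω, |∑ A : Finset (Fin (k + 1)), (-1 : ℝ) ^ A.card * (∑ b ∈ A, τ b) * (D A ω).B i k'| ≤
        K * (2 : ℝ) ^ (-((l + j : ℕ) : ℝ))) ∧
      i0 ω ∉ J ω ∧ k0 ω ∈ J ω ∧ (2 : ℝ) ^ (-(k1 : ℝ)) ≤ |c ω (i0 ω) (k0 ω)| ∧
      (∀ i ∉ J ω, ∀ k' ∈ J ω, |c ω i k'| ≤ |c ω (i0 ω) (k0 ω)|)) →
    CH μ (fun ω => cel (l + j) ((D ∅ ω).N (Yt t (a ω) (x ω))))
        (fun ω => (cel l ((D ∅ ω).N (Yt t (a ω) (x ω))), G ω)) -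
      CH μ (fun ω => cel (l + j) ((D ∅ ω).N (Yt t (a ω) (x ω))))
        (fun ω => (xi l (a ω) (x ω), cel l ((D ∅ ω).N (Yt t (a ω) (x ω))), G ω)) ≤ e1 →
    (∀ A, CH μ (fun ω => cel (l + j) ((D A ω).N (Yt (t + ∑ b ∈ A, τ b) (a ω) (x ω))))
        (fun ω => (cel l ((D ∅ ω).N (Yt t (a ω) (x ω))), G ω)) ≤
      CH μ (fun ω => cel (l + j) ((D ∅ ω).N (Yt t (a ω) (x ω))))
        (fun ω => (cel l ((D ∅ ω).N (Yt t (a ω) (x ω))), G ω)) + e2) →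
    (∑ ω, μ ω * (J ω).card) * l - CH μ (fun ω => cel l ((D ∅ ω).v (Yt t (a ω) (x ω))))
        (fun ω => (cel (l + j) ((D ∅ ω).N (Yt t (a ω) (x ω))), G ω)) ≤ e3 →
    mass μ * (((l + j : ℕ) : ℝ) - k1) -
      CH μ (fun ω => cel (l + j) ((D ∅ ω).N (Yt t (a ω) (x ω))))
        (fun ω => (cel (l + j) (((D ∅ ω).ext (i0 ω) (fun i => if i ∈ J ω then 0 else
            c ω i (k0 ω) / c ω (i0 ω) (k0 ω))).N (Yt t (a ω) (x ω))),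
          cel k1 ((D ∅ ω).N (Yt t (a ω) (x ω))), G ω)) ≤
      δ * (l + j) + C * (e1 + e2 + e3 + 1 + Real.logb 2 K)

end

end Pool.Agent.Helper69.RK
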